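import Mathlib

namespace Pool.Agent.Results.MP_f57d9c_nt.Residue
open Finset Matrix

/-- the determinant `D_p(δ₁, δ₂)` -/
def D (p : ℕ) [Fact p.Prime] (δ₁ δ₂ : ℤ) : ℤ :=
  det (Matrix.of fun j k : Fin ((p + 1) / 2) =>
    legendreSym p ((j : ℕ) + (k : ℕ)) + legendreSym p ((j : ℕ) - (k : ℕ)) +
      δ₁ * legendreSym p (((j : ℕ) : ℤ) ^ 2 + δ₂ * ((k : ℕ) : ℤ) ^ 2))

section
variable {F : Type*} [Field F]

def Cm (h : ℕ) (d₁ d₂ : F) : Matrix (Fin (2 * h + 1)) (Fin (2 * h + 1)) F := Matrix.of fun a b =>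
  (if (a : ℕ) + b = 2 * h then d₁ * d₂ ^ (b : ℕ) * (2 * h).choose b else 0) +
    (if (a : ℕ) + b = h then 2 * ((2 * h).choose (2 * b) : F) else 0)

lemma anti (N m : ℕ) (hm : m < N) (f : ℕ → ℕ → F) :
    ∑ b : Fin N, ∑ a : Fin N, (if (a : ℕ) + b = m then f a b else 0)
      = ∑ b ∈ range (m + 1), f (m - b) b := by
  rw [Fin.sum_univ_eq_sum_range (fun b => ∑ a : Fin N, (if (a : ℕ) + b = m then f a b else 0))]
  symm
  refine sum_subset_zero_on_sdiff (range_subset_range.2 hm) (fun b hb => ?_) (fun b hb => ?_)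
  · have := (mem_sdiff.1 hb).2
    rw [mem_range] at this
    exact sum_eq_zero fun a _ => if_neg (by omega)
  · have := mem_range.1 hb
    rw [sum_eq_single (⟨m - b, by omega⟩ : Fin N)]
    · rw [if_pos (by simp; omega)]
    · intro a _ ha; exact if_neg fun h => ha (Fin.ext (by simp; omega))
    · simp

lemma even_part (h : ℕ) (x y : F) : (x + y) ^ (2 * h) + (x - y) ^ (2 * h)
    = ∑ b ∈ range (h + 1), (x ^ 2) ^ (h - b) * (2 * ((2 * h).choose (2 * b) : F)) * (y ^ 2) ^ b := by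
  rw [sub_eq_add_neg, add_comm x, add_comm x, add_pow, add_pow, ← sum_add_distrib]
  have key : ∀ (g : ℕ → F) (n : ℕ), (∀ i, g (2 * i + 1) = 0) →
      ∑ i ∈ range (2 * n + 1), g i = ∑ b ∈ range (n + 1), g (2 * b) := by
    intro g n hg
    induction n with
    | zero => simp
    | succ n ih => rw [show 2 * (n + 1) + 1 = 2 * n + 1 + 1 + 1 by ring, sum_range_succ,
        sum_range_succ, ih, hg, add_zero, sum_range_succ _ (n + 1)]; rfl
  rw [key _ h (fun i => by rw [Odd.neg_pow ⟨i, rfl⟩]; ring)]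
  refine sum_congr rfl fun b hb => ?_
  have := mem_range.1 hb
  rw [Even.neg_pow ⟨b, by ring⟩, show 2 * h - 2 * b = 2 * (h - b) by omega, pow_mul, pow_mul]
  ring

lemma fact (h : ℕ) (d₁ d₂ : F) (x : Fin (2 * h + 1) → F) :
    (Matrix.of fun j k => (x j + x k) ^ (2 * h) + (x j - x k) ^ (2 * h) +
      d₁ * (x j ^ 2 + d₂ * x k ^ 2) ^ (2 * h))
    = vandermonde (fun j => x j ^ 2) * Cm h d₁ d₂ * (vandermonde (fun j => x j ^ 2))ᵀ := by
  ext j k
  simp only [mul_apply, of_apply, vandermonde_apply, transpose_apply, Cm, mul_add, add_mul,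
    sum_add_distrib, sum_mul, mul_ite, ite_mul, mul_zero, zero_mul]
  rw [anti _ (2 * h) (by omega) (fun a b => (x j ^ 2) ^ a * (d₁ * d₂ ^ b * (2 * h).choose b) *
      (x k ^ 2) ^ b),
    anti _ h (by omega) (fun a b => (x j ^ 2) ^ a * (2 * ((2 * h).choose (2 * b) : F)) *
      (x k ^ 2) ^ b), even_part, add_comm, add_comm (x j ^ 2), add_pow, mul_sum]
  congr 1
  refine sum_congr rfl fun b _ => by ring

lemma detC (h : ℕ) (h0 : 0 < h) (d₁ d₂ : F) : ∃ ε : ℤˣ, ((ε : ℤ) : F) * det (Cm h d₁ d₂) =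
    ∏ a : Fin (2 * h + 1), (d₁ * d₂ ^ (2 * h - a) * (2 * h).choose a) := by
  refine ⟨Equiv.Perm.sign (Fin.revPerm (n := 2 * h + 1)), ?_⟩
  rw [← det_permute', det_of_isUpperTriangular]
  · refine prod_congr rfl fun a _ => ?_
    have := a.2
    simp only [submatrix_apply, id, Cm, of_apply, Fin.revPerm_apply, Fin.val_rev]
    rw [if_pos (by omega), if_neg (by omega), add_zero,
      show 2 * h + 1 - (a + 1) = 2 * h - a by omega, Nat.choose_symm (by omega)]
  · intro a b hab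
    have h1 : (b : ℕ) < a := hab
    have := a.2
    simp only [submatrix_apply, id, Cm, of_apply, Fin.revPerm_apply, Fin.val_rev]
    rw [if_neg (by omega), if_neg (by omega), add_zero]

def Q (x : F) : Prop := ∃ y, y ≠ 0 ∧ x = y ^ 2

lemma Q.mul {x y : F} (hx : Q x) (hy : Q y) : Q (x * y) := by
  obtain ⟨a, ha, rfl⟩ := hx
  obtain ⟨b, hb, rfl⟩ := hy
  exact ⟨a * b, mul_ne_zero ha hb, by ring⟩

lemma Q.cancel {x y : F} (hx : Q (x * y)) (hy : Q y) : Q x := by
  obtain ⟨a, ha, h⟩ := hx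
  obtain ⟨b, hb, rfl⟩ := hy
  exact ⟨a / b, div_ne_zero ha hb, by rw [div_pow, ← h]; field_simp⟩

lemma Q.one : Q (1 : F) := ⟨1, one_ne_zero, by simp⟩
lemma Q.pow {x : F} (hx : Q x) (n : ℕ) : Q (x ^ n) := by
  induction n with
  | zero => simpa using Q.one
  | succ n ih => rw [pow_succ]; exact ih.mul hx
end

lemma half (p h : ℕ) [Fact p.Prime] (hp : p = 4 * h + 1) :
    (((2 * h).factorial : ℕ) : ZMod p) ^ 2 = -1 := by
  rw [← ZMod.wilsons_lemma p, show p - 1 = 2 * h + 2 * h by omega, ← prod_range_add_one_eq_factorial,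
    ← prod_range_add_one_eq_factorial, prod_range_add, ← prod_range_reflect (fun i => 2 * h + i + 1)]
  push_cast
  have : ∀ i ∈ range (2 * h), (2 * h : ZMod p) + ((2 * h - 1 - i : ℕ) : ZMod p) + 1
      = (-1) * ((i : ZMod p) + 1) := by
    intro i hi
    have := mem_range.1 hi
    have e : ((2 * h + (2 * h - 1 - i) + 1 + (i + 1) : ℕ) : ZMod p) = 0 := by
      rw [show 2 * h + (2 * h - 1 - i) + 1 + (i + 1) = p by omega]; exact ZMod.natCast_self p
    push_cast at e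
    linear_combination e
  rw [prod_congr rfl this, prod_mul_distrib, prod_const, card_range, pow_mul]
  ring

theorem result (p : ℕ) [Fact p.Prime] (hp : p % 4 = 1) (δ₁ δ₂ : ℤ) (h₁ : δ₁ = 1 ∨ δ₁ = -1)
    (h₂ : δ₂ = 1 ∨ δ₂ = -1) :
    ¬ (p : ℤ) ∣ 2 * D p δ₁ δ₂ ∧ ∃ y : ℤ, 2 * D p δ₁ δ₂ ≡ y ^ 2 [ZMOD p] := by
  have pp : p.Prime := Fact.out
  obtain ⟨h, rfl⟩ : ∃ h, p = 4 * h + 1 := ⟨p / 4, by omega⟩
  set p := 4 * h + 1 with hpd
  have h0 : 0 < h := by have := pp.two_le; omega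
  suffices H : Q ((2 * D p δ₁ δ₂ : ℤ) : ZMod p) by
    obtain ⟨y, hy, e⟩ := H
    refine ⟨fun hd => ?_, y.val, ?_⟩
    · rw [(ZMod.intCast_zmod_eq_zero_iff_dvd _ _).2 hd] at e
      exact pow_ne_zero 2 hy e.symm
    · rw [← ZMod.intCast_eq_intCast_iff, e]; simp
  have e1 : (p + 1) / 2 = 2 * h + 1 := by omega
  have e2 : p / 2 = 2 * h := by omega
  have hD : ((D p δ₁ δ₂ : ℤ) : ZMod p) = det (vandermonde (fun j : Fin (2 * h + 1) =>
      ((j : ℕ) : ZMod p) ^ 2)) ^ 2 * det (Cm h (δ₁ : ZMod p) (δ₂ : ZMod p)) := by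
    have := congrArg det (fact h (δ₁ : ZMod p) (δ₂ : ZMod p) (fun j => ((j : ℕ) : ZMod p)))
    rw [det_mul, det_mul, det_transpose] at this
    rw [D, Int.cast_det, ← det_submatrix_equiv_self (finCongr e1.symm), sq, mul_right_comm, ← this]
    congr 1
    ext j k
    simp [legendreSym.eq_pow, e2]
  have nz : ∀ a : ℕ, 0 < a → a < p → (a : ZMod p) ≠ 0 := fun a h1 h2 h3 =>
    absurd (Nat.le_of_dvd h1 ((ZMod.natCast_eq_zero_iff _ _).1 h3)) (by omega)
  have fz : ∀ a : ℕ, a < p → ((a.factorial : ℕ) : ZMod p) ≠ 0 := fun a ha h3 =>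
    absurd (pp.dvd_factorial.1 ((ZMod.natCast_eq_zero_iff _ _).1 h3)) (by omega)
  have hV : det (vandermonde (fun j : Fin (2 * h + 1) => ((j : ℕ) : ZMod p) ^ 2)) ≠ 0 := by
    rw [det_vandermonde_ne_zero_iff]
    intro j k hjk
    have := j.2
    have := k.2
    rcases sq_eq_sq_iff_eq_or_eq_neg.1 hjk with e | e
    · have := (ZMod.natCast_eq_natCast_iff' _ _ _).1 e
      rw [Nat.mod_eq_of_lt (by omega), Nat.mod_eq_of_lt (by omega)] at this
      exact Fin.ext this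
    · by_contra hne
      have hne' : (j : ℕ) ≠ k := fun h => hne (Fin.ext h)
      exact nz (j + k) (by omega) (by omega) (by push_cast; linear_combination e)
  have hi := half p h hpd
  set i := (((2 * h).factorial : ℕ) : ZMod p) with hid
  have i0 : i ≠ 0 := fz _ (by omega)
  have Qm : Q (-1 : ZMod p) := ⟨i, i0, hi.symm⟩
  have Qs : ∀ δ : ℤ, δ = 1 ∨ δ = -1 → Q (δ : ZMod p) := by
    rintro δ (rfl | rfl)
    · simpa using Q.one
    · simpa using Qm
  have Q2 : Q (2 * i) := by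
    refine ⟨1 + i, fun h => ?_, by linear_combination -hi⟩
    have : (2 : ZMod p) * i = 0 := by linear_combination (1 + i) * h - hi
    exact mul_ne_zero (by exact_mod_cast nz 2 (by norm_num) (by omega)) i0 this
  obtain ⟨ε, hε⟩ := detC h h0 (δ₁ : ZMod p) (δ₂ : ZMod p)
  rw [prod_mul_distrib] at hε
  have QA : Q (∏ a : Fin (2 * h + 1), ((δ₁ : ZMod p) * (δ₂ : ZMod p) ^ (2 * h - a))) :=
    prod_induction _ Q (fun _ _ => Q.mul) Q.one fun a _ => (Qs _ h₁).mul ((Qs _ h₂).pow _)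
  have QB : Q (2 * ∏ a : Fin (2 * h + 1), (((2 * h).choose a : ℕ) : ZMod p)) := by
    rw [Fin.prod_univ_eq_prod_range (fun a => (((2 * h).choose a : ℕ) : ZMod p))]
    set G := ∏ a ∈ range (2 * h + 1), ((a.factorial : ℕ) : ZMod p) with hG
    have G0 : G ≠ 0 := prod_ne_zero_iff.2 fun a ha => fz a (by have := mem_range.1 ha; omega)
    have e : (∏ a ∈ range (2 * h + 1), (((2 * h).choose a : ℕ) : ZMod p)) * G * G
        = i ^ (2 * h + 1) := by
      nth_rewrite 2 [hG]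
      rw [← prod_range_reflect (fun a => ((a.factorial : ℕ) : ZMod p)), hG, ← prod_mul_distrib,
        ← prod_mul_distrib, ← card_range (2 * h + 1), ← prod_const, card_range]
      refine prod_congr rfl fun a ha => ?_
      have := Nat.choose_mul_factorial_mul_factorial (show a ≤ 2 * h by
        have := mem_range.1 ha; omega)
      rw [hid, ← this]; push_cast; rfl
    refine Q.cancel (y := G ^ 2) ?_ ⟨G, G0, rfl⟩
    have := Q2.mul ⟨i ^ h, pow_ne_zero _ i0, rfl⟩
    convert this using 1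
    linear_combination 2 * e
  refine Q.cancel (y := ((ε : ℤ) : ZMod p)) ?_ (Qs _ (by
    rcases Int.units_eq_one_or ε with h | h <;> simp [h]))
  have := (QA.mul QB).mul ⟨_, hV, rfl⟩
  convert this using 1
  push_cast
  rw [hD]
  linear_combination 2 * det (vandermonde (fun j : Fin (2 * h + 1) =>
      ((j : ℕ) : ZMod p) ^ 2)) ^ 2 * hε

end Pool.Agent.Results.MP_f57d9c_nt.Residue
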